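import Pool.Agent.SchurTwoRow.Alternative

/-!
# All two-row shapes, for partitions whose parts form a chain under divisibility

For every two-row shape `(a, b)` and every `n`, two partitions of `n` with at least two parts
whose parts all together form a chain under divisibility (for example partitions into powers of a
fixed integer) agree if their images under the Schur partition map agree.

Proof idea. If the smallest parts agree, the partitions agree. Otherwise compare the smallest
elements of the two multisets: the partition with the smaller smallest part `s` has `s` only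
once, and its other parts exceed the two smallest parts `t ≤ W` of the other partition. By the
chain condition `t` divides every part of both partitions except `s`, so `t` divides `s < t`.
-/

namespace Pool.Agent.Results.MP_0e1197_co.DivisibilityChain

open Pool.Agent.SchurTwoRow

theorem not_lower {a b : ℕ} {M N : Multiset ℕ} (hsum : M.sum = N.sum)
    (hchain : ∀ x ∈ M + N, ∀ y ∈ M + N, x ∣ y ∨ y ∣ x) : ¬ Lower a b M N := by
  rintro ⟨s, S, t, W, M', N', hs0, hst, htW, hWS, _, rfl, rfl, hM', hN'⟩
  have ht : t ∈ (s ::ₘ S ::ₘ M') + (t ::ₘ W ::ₘ N') := by simp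
  have key : ∀ m ∈ (s ::ₘ S ::ₘ M') + (t ::ₘ W ::ₘ N'), t ≤ m → t ∣ m := by
    intro m hm hle
    rcases hchain t ht m hm with h | h
    · exact h
    · have hm0 : 0 < t := by omega
      have := Nat.le_of_dvd hm0 h
      rw [le_antisymm hle this]
  have h1 : t ∣ S := key S (by simp) (by omega)
  have h2 : t ∣ M'.sum := Multiset.dvd_sum fun m hm => key m (by simp [hm]) (by
    have := hM' m hm; omega)
  have h3 : t ∣ W := key W (by simp) htW
  have h4 : t ∣ N'.sum := Multiset.dvd_sum fun m hm => key m (by simp [hm]) (by
    have := hN' m hm; omega)
  simp only [Multiset.sum_cons] at hsum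
  have h5 : t ∣ s + (S + M'.sum) := by
    rw [hsum]
    exact Dvd.dvd.add (dvd_refl t) (Dvd.dvd.add h3 h4)
  have h6 : t ∣ s := (Nat.dvd_add_left (Dvd.dvd.add h1 h2)).1 h5
  have := Nat.le_of_dvd hs0 h6
  omega

/-- For every two-row shape `(a, b)`: two partitions of `n` with at least two parts, all of whose
parts together form a chain under divisibility, agree if their images under the Schur partition
map of shape `(a, b)` agree. -/
theorem result (a b n : ℕ) (hb : 1 ≤ b) (hab : b ≤ a) (p q : n.Partition)
    (hp : 2 ≤ Multiset.card p.parts) (hq : 2 ≤ Multiset.card q.parts)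
    (hchain : ∀ x ∈ p.parts + q.parts, ∀ y ∈ p.parts + q.parts, x ∣ y ∨ y ∣ x)
    (h : prs a b p = prs a b q) : p = q := by
  apply Nat.Partition.ext
  have hsum : p.parts.sum = q.parts.sum := by rw [p.parts_sum, q.parts_sum]
  rcases prs_alternative hb hab hp hq h with h1 | h1 | h1
  · exact h1
  · exact absurd h1 (not_lower hsum hchain)
  · refine absurd h1 (not_lower hsum.symm fun x hx y hy => ?_)
    rw [add_comm] at hx hy
    exact hchain x hx y hy

end Pool.Agent.Results.MP_0e1197_co.DivisibilityChain
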