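import Pool.Agent.SchurTwoRow.Analytic

/-!
# Injectivity of the Schur partition map for the hook shapes `(a, 1)`

For every `a ≥ 1` and every `n`, the map `prs` of shape `(a, 1)` is injective on the partitions
of `n` with at least two parts.

Proof idea. If the multisets agree, then the Schur polynomials of shape `(a, 1)` agree at
`λ ^ t` and `ν ^ t` for all real `t`. With `D(t) = ∑ λ_i ^ t - ∑ ν_i ^ t`, the identity
`s_(a,1) = h_a h_1 - h_(a+1)` and Newton's identities show that `D(t) > 0` together with
`D(2t), …, D((a-1)t) ≥ 0` forces `D((a+1)t) > 0`. So if `D` is positive on `(0, ε)`, it is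
positive on `(0, ∞)`, which contradicts `D(1) = 0`. Hence `D` vanishes identically.
-/

namespace Pool.Agent.Results.MP_0e1197_co.HookShapes

open Pool.Agent.SchurTwoRow

theorem propagate (a : ℕ) {l l' : ℕ} {x : Fin l → ℕ} {y : Fin l' → ℕ} (hx : ∀ i, 0 < x i)
    (hy : ∀ i, 0 < y i) (hl : 0 < l)
    (h : ∀ t : ℝ, ssum (a + 1) 1 (powFun x t) = ssum (a + 1) 1 (powFun y t))
    {ε : ℝ} (hε : 0 < ε) (hpos : ∀ t, 0 < t → t < ε → powSum y t < powSum x t) :
    powSum y 1 < powSum x 1 := by
  set A : ℝ := max (a : ℝ) 1 with hA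
  have hA1 : 1 ≤ A := le_max_right _ _
  have hA0 : 0 < A := by linarith
  set r : ℝ := (a + 2) / A with hr
  have hr1 : 1 < r := by
    rw [hr, lt_div_iff₀ hA0, one_mul]
    rcases le_total (a : ℝ) 1 with h1 | h1
    · rw [hA, max_eq_right h1]
      have : (0 : ℝ) ≤ a := Nat.cast_nonneg a
      linarith
    · rw [hA, max_eq_left h1]; linarith
  have hstep : ∀ δ : ℝ, (∀ t, 0 < t → t < δ → powSum y t < powSum x t) →
      ∀ t, 0 < t → t < r * δ → powSum y t < powSum x t := by
    intro δ hδ t ht0 ht1
    have ha2 : (0 : ℝ) < a + 2 := by positivity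
    set s : ℝ := t / (a + 2) with hs
    have hs0 : 0 < s := div_pos ht0 ha2
    have hAs : A * s < δ := by
      rw [hs]
      rw [hr] at ht1
      have h2 : t * A < (a + 2) * δ := by
        have := mul_lt_mul_of_pos_right ht1 hA0
        calc t * A < (a + 2) / A * δ * A := this
          _ = (a + 2) * δ := by field_simp
      rw [mul_div_assoc', div_lt_iff₀ ha2]
      linarith
    have hkey := step a (powFun_pos hx s) (powFun_pos hy s) hl (h s)
    simp only [psum_powFun] at hkey
    have e : ((a + 2 : ℕ) : ℝ) * s = t := by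
      rw [hs]; push_cast; field_simp
    rw [e] at hkey
    apply hkey
    · apply hδ
      · push_cast; linarith
      · push_cast
        calc 1 * s ≤ A * s := mul_le_mul_of_nonneg_right hA1 hs0.le
          _ < δ := hAs
    · intro i hi1 hi2
      apply (hδ _ _ _).le
      · positivity
      · calc ((i + 1 : ℕ) : ℝ) * s ≤ A * s := by
              apply mul_le_mul_of_nonneg_right _ hs0.le
              have : ((i + 1 : ℕ) : ℝ) ≤ a := by exact_mod_cast hi2
              exact this.trans (le_max_left _ _)
          _ < δ := hAs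
  have hiter : ∀ k : ℕ, ∀ t, 0 < t → t < r ^ k * ε → powSum y t < powSum x t := by
    intro k
    induction k with
    | zero => simpa using hpos
    | succ k ih =>
      have := hstep _ ih
      intro t h0 h1
      apply this t h0
      rw [pow_succ] at h1
      linarith
  obtain ⟨k, hk⟩ := pow_unbounded_of_one_lt (1 / ε) hr1
  apply hiter k 1 one_pos
  rw [div_lt_iff₀ hε] at hk
  exact hk

/-- For every `a ≥ 1`, the Schur partition map of shape `(a, 1)` is injective on the partitions
of `n` with at least two parts. -/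
theorem result (a n : ℕ) (ha : 1 ≤ a) (p q : n.Partition) (hp : 2 ≤ Multiset.card p.parts)
    (hq : 2 ≤ Multiset.card q.parts) (h : prs a 1 p = prs a 1 q) : p = q := by
  obtain ⟨a, rfl⟩ : ∃ b, a = b + 1 := ⟨a - 1, by omega⟩
  set x := partFun p with hx
  set y := partFun q with hy
  have hxp : ∀ i, 0 < x i := partFun_pos p
  have hyp : ∀ i, 0 < y i := partFun_pos q
  have hlx : 0 < (sortedParts p).length := by rw [length_sortedParts]; omega
  have hly : 0 < (sortedParts q).length := by rw [length_sortedParts]; omega
  have hs : ∀ t : ℝ, ssum (a + 1) 1 (powFun x t) = ssum (a + 1) 1 (powFun y t) := by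
    intro t
    rw [ssum_powFun, ssum_powFun]
    unfold prs at h
    rw [h]
  have hone : powSum x 1 = powSum y 1 := by
    unfold powSum
    simp only [Real.rpow_one]
    have h1 := sum_partFun p
    have h2 := sum_partFun q
    have h3 : ∑ i, x i = ∑ i, y i := by rw [h1, h2]
    exact_mod_cast h3
  have hD : ∀ t, AnalyticAt ℝ (fun t => powSum x t - powSum y t) t := fun t =>
    (analyticAt_powSum hxp t).sub (analyticAt_powSum hyp t)
  rcases dichotomy hD with h0 | ⟨ε, hε, h0⟩ | ⟨ε, hε, h0⟩
  · apply Nat.Partition.ext
    apply eq_of_pow_sums (fun z hz => p.parts_pos hz) (fun z hz => q.parts_pos hz)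
    intro k
    have := h0 ((k + 1 : ℕ) : ℝ)
    unfold powSum at this
    simp only [Real.rpow_natCast] at this
    rw [← map_partFun p, ← map_partFun q, Multiset.map_map, Multiset.map_map]
    exact sub_eq_zero.1 this
  · have := propagate a hxp hyp hlx hs hε fun t ht0 ht1 => sub_pos.1 (h0 t ht0 ht1)
    linarith
  · have := propagate a hyp hxp hly (fun t => (hs t).symm) hε
      fun t ht0 ht1 => sub_neg.1 (h0 t ht0 ht1)
    linarith

end Pool.Agent.Results.MP_0e1197_co.HookShapes
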