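import Pool.Agent.Lib.H70S.Main

/-!
# Schur partition maps of two-row shapes away from a thin set of lengths

For every two-row shape `(a, b)` and every `n`, the Schur partition map `prs_(a,b)` separates a
partition `λ` of `n` from all other partitions of `n` whenever `λ` has at most four parts or the
number of parts of `λ` (or, for some prime `r`, the number `≥ 2` of parts of least or of greatest
`r`-adic valuation) does not lie in the explicit set `Exc a b`. This set has only `O(log L)`
elements up to `L`, and for `b ≥ 2`, `a + b ≤ 12` it has only two elements between `5` and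
`1000`.
-/

namespace Pool.Agent.Results.MP_0e1197_co.NonExceptionalLengths

open Pool.Agent.SchurTwoRow Pool.Agent.Lib.H70S

theorem result :
    (∀ (a b n : ℕ) (p q : n.Partition), 1 ≤ b → b ≤ a →
      2 ≤ Multiset.card p.parts → 2 ≤ Multiset.card q.parts → prs a b p = prs a b q →
      (Multiset.card p.parts ≤ 4 ∨ Multiset.card p.parts ∉ Exc a b ∨
        ∃ r : ℕ, r.Prime ∧
          ((2 ≤ Multiset.card (minFace r p.parts) ∧
              Multiset.card (minFace r p.parts) ∉ Exc a b) ∨
            (2 ≤ Multiset.card (maxFace r p.parts) ∧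
              Multiset.card (maxFace r p.parts) ∉ Exc a b))) → p = q) ∧
    (∀ a b L : ℕ, 1 ≤ b → b ≤ a → 1 ≤ L →
      ((Exc a b ∩ Set.Icc 1 L).ncard : ℝ) ≤
        (a + b - 1) * ((a + 1) * (Real.log (2 * a) + (a + b - 1) * Real.log L))) ∧
    (∀ a b l : ℕ, 2 ≤ b → b ≤ a → a + b ≤ 12 → 5 ≤ l → l ≤ 1000 → (l ∈ Exc a b ↔
      (a = 2 ∧ b = 2 ∧ l = 14) ∨ (a = 3 ∧ b = 3 ∧ l = 13))) :=
  ⟨fun _ _ _ _ _ hb hab hp hq h hc => main hb hab hp hq h
      (hc.imp_right fun hc => hc.imp_right fun hc => Or.inr hc),
    fun _ _ _ hb hab hL => exc_count hb hab hL,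
    fun _ _ _ hb hab hs h5 hl => ⟨fun hE => small_shapes hb hab hs h5 hl hE, fun hE => by
      rcases hE with ⟨rfl, rfl, rfl⟩ | ⟨rfl, rfl, rfl⟩
      · exact ⟨5, by norm_num, by norm_num, by decide +kernel⟩
      · exact ⟨5, by norm_num, by norm_num, by decide +kernel⟩⟩⟩

end Pool.Agent.Results.MP_0e1197_co.NonExceptionalLengths
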