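import Pool.Agent.SchurTwoRow.Analytic

/-!
# Injectivity of the Schur partition map for the shape `(2, 2)`

If the multisets agree, the Schur polynomials `s_(2,2) = (p_1^4 - 4 p_1 p_3 + 3 p_2^2) / 12`
agree at `λ ^ t` and `ν ^ t` for all real `t`. With `D(t) = ∑ λ_i ^ t - ∑ ν_i ^ t` this gives an
identity which shows that `D(t), D(2t) > 0` forces `D(3t) > 0`. So if `D` is positive on
`(0, ε)`, it is positive on `(0, ∞)`, which contradicts `D(1) = 0`.
-/

namespace Pool.Agent.Results.MP_0e1197_co.SquareShape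

open Pool.Agent.SchurTwoRow

theorem monotone_two {l : ℕ} {r : Fin 2 → Fin l} : Monotone r ↔ r 0 ≤ r 1 := by
  constructor
  · intro h; exact h (Fin.zero_le _)
  · intro h i j hij
    fin_cases i <;> fin_cases j <;> first | exact le_rfl | exact h | (exact absurd hij (by decide))

theorem monotone_three {l : ℕ} {r : Fin 3 → Fin l} : Monotone r ↔ r 0 ≤ r 1 ∧ r 1 ≤ r 2 := by
  constructor
  · intro h; exact ⟨h (by decide), h (by decide)⟩
  · rintro ⟨h1, h2⟩ i j hij
    fin_cases i <;> fin_cases j <;>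
      first | exact le_rfl | exact h1 | exact h2 | exact h1.trans h2 | (exact absurd hij (by decide))

theorem isTableau_two {l : ℕ} {r s : Fin 2 → Fin l} :
    IsTableau r s ↔ (r 0 ≤ r 1 ∧ s 0 ≤ s 1) ∧ (r 0 < s 0 ∧ r 1 < s 1) := by
  constructor
  · rintro ⟨h1, h2, h3⟩
    exact ⟨⟨h1 0 1 (Fin.zero_le _), h2 0 1 (Fin.zero_le _)⟩, h3 0 0 rfl, h3 1 1 rfl⟩
  · rintro ⟨⟨h1, h2⟩, h3, h4⟩
    refine ⟨fun i j hij => monotone_two.2 h1 hij, fun i j hij => monotone_two.2 h2 hij, ?_⟩
    intro i j hij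
    have : i = j := Fin.ext hij
    subst this
    fin_cases i
    · exact h3
    · exact h4

theorem ssum_two {l : ℕ} (u : Fin l → ℝ) :
    ssum 2 2 u = hsum 2 u * hsum 2 u - hsum 3 u * psum 1 u := by
  classical
  have h1 : hsum 2 u * hsum 2 u =
      ∑ q ∈ words 2 l ×ˢ words 2 l, (∏ i, u (q.1 i)) * ∏ i, u (q.2 i) := by
    rw [Finset.sum_product]
    unfold hsum
    rw [Finset.sum_mul_sum]
  rw [h1, ← Finset.sum_filter_add_sum_filter_not _ (fun q => q.1 0 < q.2 0 ∧ q.1 1 < q.2 1)]
  have h2 : ssum 2 2 u =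
      ∑ q ∈ (words 2 l ×ˢ words 2 l).filter (fun q => q.1 0 < q.2 0 ∧ q.1 1 < q.2 1),
        (∏ i, u (q.1 i)) * ∏ i, u (q.2 i) := by
    unfold ssum
    apply Finset.sum_congr _ fun _ _ => rfl
    ext T
    rw [mem_tableaux, isTableau_two]
    simp only [Finset.mem_filter, Finset.mem_product, mem_words, monotone_two]
  have h3 : hsum 3 u * psum 1 u =
      ∑ q ∈ (words 2 l ×ˢ words 2 l).filter (fun q => ¬ (q.1 0 < q.2 0 ∧ q.1 1 < q.2 1)),
        (∏ i, u (q.1 i)) * ∏ i, u (q.2 i) := by
    have h4 : hsum 3 u * psum 1 u =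
        ∑ q ∈ words 3 l ×ˢ (Finset.univ : Finset (Fin l)), (∏ i, u (q.1 i)) * u q.2 := by
      rw [Finset.sum_product]
      unfold hsum psum
      rw [Finset.sum_mul]
      apply Finset.sum_congr rfl
      intro r _
      rw [Finset.mul_sum]
      simp
    rw [h4]
    refine Finset.sum_bij'
      (fun q _ => if q.1 0 ≤ q.2 then (![q.1 1, q.1 2], ![q.1 0, q.2])
        else (![q.2, q.1 2], ![q.1 0, q.1 1]))
      (fun q _ => if q.2 0 ≤ q.1 0 then (![q.2 0, q.1 0, q.1 1], q.2 1)
        else (![q.2 0, q.2 1, q.1 1], q.1 0)) ?_ ?_ ?_ ?_ ?_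
    · rintro ⟨t, c⟩ hq
      simp only [Finset.mem_filter, Finset.mem_product, mem_words, monotone_two, monotone_three,
        Finset.mem_univ, and_true] at hq ⊢
      split_ifs with hc
      · simp
        refine ⟨⟨hq.2, hc⟩, ?_⟩
        intro hlt
        exact absurd hlt (not_lt.2 hq.1)
      · simp
        push Not at hc
        exact ⟨⟨hc.le.trans (hq.1.trans hq.2), hq.1⟩, fun _ => hq.2⟩
    · rintro ⟨r, s⟩ hq
      simp only [Finset.mem_filter, Finset.mem_product, mem_words, monotone_two, monotone_three,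
        Finset.mem_univ, and_true] at hq ⊢
      split_ifs with hc
      · simp
        exact ⟨hc, hq.1.1⟩
      · simp
        push Not at hc
        refine ⟨hq.1.2, ?_⟩
        by_contra hcon
        push Not at hcon
        exact hq.2 ⟨hc, hcon⟩
    · rintro ⟨t, c⟩ hq
      simp only [Finset.mem_product, mem_words, monotone_three, Finset.mem_univ, and_true] at hq
      by_cases hc : t 0 ≤ c
      · simp [hc, hq.1]
        funext i; fin_cases i <;> rfl
      · push Not at hc
        simp [not_le.2 hc]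
        funext i; fin_cases i <;> rfl
    · rintro ⟨r, s⟩ hq
      simp only [Finset.mem_filter, Finset.mem_product, mem_words, monotone_two] at hq
      by_cases hc : s 0 ≤ r 0
      · simp [hc, hq.1.2]
        constructor <;> funext i <;> fin_cases i <;> rfl
      · push Not at hc
        simp [not_le.2 hc]
        constructor <;> funext i <;> fin_cases i <;> rfl
    · rintro ⟨t, c⟩ hq
      by_cases hc : t 0 ≤ c
      · simp [hc, Fin.prod_univ_succ]; ring
      · simp [hc, Fin.prod_univ_succ]; ring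
  rw [h2, h3]; ring

theorem ssum_two_psum {l : ℕ} (u : Fin l → ℝ) :
    12 * ssum 2 2 u = psum 1 u ^ 4 - 4 * psum 1 u * psum 3 u + 3 * psum 2 u ^ 2 := by
  rw [ssum_two]
  have h2 := newton 2 u
  have h3 := newton 3 u
  simp only [Finset.sum_range_succ, Finset.sum_range_zero] at h2 h3
  norm_num at h2 h3
  rw [hsum_one, hsum_zero] at h2
  rw [hsum_one, hsum_zero] at h3
  have e2 : hsum 2 u = (psum 1 u ^ 2 + psum 2 u) / 2 := by linarith [sq (psum 1 u)]
  rw [e2] at h3 ⊢
  have e3 : hsum 3 u = (psum 1 u * ((psum 1 u ^ 2 + psum 2 u) / 2) + psum 2 u * psum 1 u +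
    psum 3 u) / 3 := by linarith
  rw [e3]; ring

theorem step22 {l l' : ℕ} {u : Fin l → ℝ} {v : Fin l' → ℝ} (hu : ∀ i, 0 < u i)
    (hv : ∀ i, 0 < v i) (hl : 0 < l) (h : ssum 2 2 u = ssum 2 2 v)
    (h1 : psum 1 v < psum 1 u) (h2 : psum 2 v < psum 2 u) : psum 3 v < psum 3 u := by
  have e1 := ssum_two_psum u
  have e2 := ssum_two_psum v
  rw [h, e2] at e1
  have p1 : 0 < psum 1 u := psum_pos 1 hu hl
  have p2 : 0 < psum 2 u := psum_pos 2 hu hl
  have q1 : 0 ≤ psum 1 v := psum_nonneg 1 hv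
  have q2 : 0 ≤ psum 2 v := psum_nonneg 2 hv
  have q3 : psum 3 v ≤ psum 1 v ^ 3 := by
    have a1 := psum_succ_le 2 hv
    have a2 := psum_succ_le 1 hv
    calc psum 3 v ≤ psum 1 v * psum 2 v := a1
      _ ≤ psum 1 v * (psum 1 v * psum 1 v) := mul_le_mul_of_nonneg_left a2 q1
      _ = psum 1 v ^ 3 := by ring
  have key : 4 * psum 1 u * (psum 3 u - psum 3 v) = (psum 1 u - psum 1 v) *
      ((psum 1 u + psum 1 v) * (psum 1 u ^ 2 + psum 1 v ^ 2) - 4 * psum 3 v) +
      3 * (psum 2 u - psum 2 v) * (psum 2 u + psum 2 v) := by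
    linear_combination e1
  have hge : 0 ≤ (psum 1 u + psum 1 v) * (psum 1 u ^ 2 + psum 1 v ^ 2) - 4 * psum 3 v := by
    have b1 : 2 * psum 1 v ≤ psum 1 u + psum 1 v := by linarith
    have b2 : 2 * psum 1 v ^ 2 ≤ psum 1 u ^ 2 + psum 1 v ^ 2 := by
      have := pow_le_pow_left₀ q1 h1.le 2
      linarith
    have b3 : (2 * psum 1 v) * (2 * psum 1 v ^ 2) ≤
        (psum 1 u + psum 1 v) * (psum 1 u ^ 2 + psum 1 v ^ 2) :=
      mul_le_mul b1 b2 (by positivity) (by linarith)
    nlinarith [b3, q3]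
  have hpos : 0 < 4 * psum 1 u * (psum 3 u - psum 3 v) := by
    rw [key]
    apply add_pos_of_nonneg_of_pos
    · exact mul_nonneg (sub_nonneg.2 h1.le) hge
    · apply mul_pos
      · linarith
      · linarith
  have := (mul_pos_iff_of_pos_left (show 0 < 4 * psum 1 u by positivity)).1 hpos
  linarith

theorem propagate {l l' : ℕ} {x : Fin l → ℕ} {y : Fin l' → ℕ} (hx : ∀ i, 0 < x i)
    (hy : ∀ i, 0 < y i) (hl : 0 < l)
    (h : ∀ t : ℝ, ssum 2 2 (powFun x t) = ssum 2 2 (powFun y t))
    {ε : ℝ} (hε : 0 < ε) (hpos : ∀ t, 0 < t → t < ε → powSum y t < powSum x t) :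
    powSum y 1 < powSum x 1 := by
  have hstep : ∀ δ : ℝ, (∀ t, 0 < t → t < δ → powSum y t < powSum x t) →
      ∀ t, 0 < t → t < (3 / 2) * δ → powSum y t < powSum x t := by
    intro δ hδ t ht0 ht1
    have hkey := step22 (powFun_pos hx (t / 3)) (powFun_pos hy (t / 3)) hl (h (t / 3))
    simp only [psum_powFun] at hkey
    have e : ((3 : ℕ) : ℝ) * (t / 3) = t := by push_cast; ring
    rw [e] at hkey
    apply hkey
    · apply hδ <;> push_cast <;> linarith
    · apply hδ <;> push_cast <;> linarith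
  have hiter : ∀ k : ℕ, ∀ t, 0 < t → t < (3 / 2) ^ k * ε → powSum y t < powSum x t := by
    intro k
    induction k with
    | zero => simpa using hpos
    | succ k ih =>
      have := hstep _ ih
      intro t h0 h1
      apply this t h0
      rw [pow_succ] at h1
      linarith
  obtain ⟨k, hk⟩ := pow_unbounded_of_one_lt (1 / ε) (show (1 : ℝ) < 3 / 2 by norm_num)
  apply hiter k 1 one_pos
  rw [div_lt_iff₀ hε] at hk
  exact hk

/-- The Schur partition map of shape `(2, 2)` is injective on the partitions of `n` with at least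
two parts. -/
theorem result (n : ℕ) (p q : n.Partition) (hp : 2 ≤ Multiset.card p.parts)
    (hq : 2 ≤ Multiset.card q.parts) (h : prs 2 2 p = prs 2 2 q) : p = q := by
  set x := partFun p with hx
  set y := partFun q with hy
  have hxp : ∀ i, 0 < x i := partFun_pos p
  have hyp : ∀ i, 0 < y i := partFun_pos q
  have hlx : 0 < (sortedParts p).length := by rw [length_sortedParts]; omega
  have hly : 0 < (sortedParts q).length := by rw [length_sortedParts]; omega
  have hs : ∀ t : ℝ, ssum 2 2 (powFun x t) = ssum 2 2 (powFun y t) := by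
    intro t
    rw [ssum_powFun, ssum_powFun]
    unfold prs at h
    rw [h]
  have hone : powSum x 1 = powSum y 1 := by
    unfold powSum
    simp only [Real.rpow_one]
    have h1 := sum_partFun p
    have h2 := sum_partFun q
    have h3 : ∑ i, x i = ∑ i, y i := by rw [h1, h2]
    exact_mod_cast h3
  have hD : ∀ t, AnalyticAt ℝ (fun t => powSum x t - powSum y t) t := fun t =>
    (analyticAt_powSum hxp t).sub (analyticAt_powSum hyp t)
  rcases dichotomy hD with h0 | ⟨ε, hε, h0⟩ | ⟨ε, hε, h0⟩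
  · apply Nat.Partition.ext
    apply eq_of_pow_sums (fun z hz => p.parts_pos hz) (fun z hz => q.parts_pos hz)
    intro k
    have := h0 ((k + 1 : ℕ) : ℝ)
    unfold powSum at this
    simp only [Real.rpow_natCast] at this
    rw [← map_partFun p, ← map_partFun q, Multiset.map_map, Multiset.map_map]
    exact sub_eq_zero.1 this
  · have := propagate hxp hyp hlx hs hε fun t ht0 ht1 => sub_pos.1 (h0 t ht0 ht1)
    linarith
  · have := propagate hyp hxp hly (fun t => (hs t).symm) hε
      fun t ht0 ht1 => sub_neg.1 (h0 t ht0 ht1)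
    linarith

end Pool.Agent.Results.MP_0e1197_co.SquareShape
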